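import Pool.Agent.H47.ST.Targets

/-!
The abstract rank process of the stack sort operator followed by reversal: insertion of a new
element in a system of antitone gap maps.
-/

namespace Pool.Agent.H74.STK

open Finset Pool.Agent.H47.ST

theorem orb_le {n : ℕ} {g : ℕ → ℕ → ℕ} (hg : ∀ k q, q ≤ n → g k q ≤ n) (k q : ℕ)
    (hq : q ≤ n) : orb g k q ≤ n := by
  induction k with
  | zero => simpa [orb] using hq
  | succ k ih => simpa [orb] using hg k _ ih

theorem orb_mono {n : ℕ} {g : ℕ → ℕ → ℕ} (hg : ∀ k q, q ≤ n → g k q ≤ n)
    (ha : ∀ k q q', q ≤ q' → q' ≤ n → g k q' ≤ g k q) (k a b : ℕ) (hab : a ≤ b) (hb : b ≤ n) :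
    (k % 2 = 0 → orb g k a ≤ orb g k b) ∧ (k % 2 = 1 → orb g k b ≤ orb g k a) := by
  induction k with
  | zero => simp [orb, hab]
  | succ k ih =>
    simp only [orb]
    constructor
    · intro h
      exact ha k _ _ (ih.2 (by omega)) (orb_le hg k a (by omega))
    · intro h
      exact ha k _ _ (ih.1 (by omega)) (orb_le hg k b hb)

theorem insg_lt {g : ℕ → ℕ → ℕ} {p k q : ℕ} (h : q < orb g k p) : insg g p k q = g k q + 1 := by
  unfold insg; rw [if_pos h]

theorem insg_eq {g : ℕ → ℕ → ℕ} {p k q : ℕ} (h : q = orb g k p) : insg g p k q = g k q := by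
  unfold insg; rw [if_neg (by omega), if_pos h]

theorem insg_gt {g : ℕ → ℕ → ℕ} {p k q : ℕ} (h : orb g k p < q) :
    insg g p k q = g k (q - 1) := by
  unfold insg; rw [if_neg (by omega), if_neg (by omega)]

/-- old gap of a new gap -/
def oldg (p q : ℕ) : ℕ := if q ≤ p then q else q - 1

theorem orb_ins {n p : ℕ} {g : ℕ → ℕ → ℕ} (hg : ∀ k q, q ≤ n → g k q ≤ n)
    (ha : ∀ k q q', q ≤ q' → q' ≤ n → g k q' ≤ g k q) (hp : p ≤ n) (k q : ℕ)
    (hq : q ≤ n + 1) :
    (orb (insg g p) k q ≤ orb g k p ∧ orb (insg g p) k q = orb g k (oldg p q)) ∨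
    (orb g k p < orb (insg g p) k q ∧ orb (insg g p) k q = orb g k (oldg p q) + 1) := by
  have hqh : oldg p q ≤ n := by unfold oldg; split_ifs <;> omega
  induction k with
  | zero =>
    simp only [orb, oldg]
    split_ifs <;> omega
  | succ k ih =>
    have hP := orb_le hg k p hp
    have hO := orb_le hg k _ hqh
    simp only [orb]
    rcases ih with ⟨h1, h2⟩ | ⟨h1, h2⟩
    · rcases Nat.lt_or_ge (orb (insg g p) k q) (orb g k p) with h3 | h3
      · right
        have h4 : insg g p k (orb (insg g p) k q) = g k (orb g k (oldg p q)) + 1 := by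
          rw [insg_lt h3, h2]
        rw [h4]
        have h5 := ha k (orb g k (oldg p q)) (orb g k p) (by omega) hP
        omega
      · left
        have h6 : orb (insg g p) k q = orb g k p := by omega
        have h4 : insg g p k (orb (insg g p) k q) = g k (orb g k p) := by
          rw [h6]
          exact insg_eq rfl
        rw [h4]
        refine ⟨le_refl _, ?_⟩
        rw [← h2, h6]
    · left
      have h4 : insg g p k (orb (insg g p) k q) = g k (orb g k (oldg p q)) := by
        rw [insg_gt h1, h2, Nat.add_sub_cancel]
      rw [h4]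
      exact ⟨ha k (orb g k p) (orb g k (oldg p q)) (by omega) hO, rfl⟩

/-- closed formula for the new orbits -/
theorem orb_ins_succ {n p : ℕ} {g : ℕ → ℕ → ℕ} (hg : ∀ k q, q ≤ n → g k q ≤ n)
    (ha : ∀ k q q', q ≤ q' → q' ≤ n → g k q' ≤ g k q) (hp : p ≤ n) (k q : ℕ)
    (hq : q ≤ n + 1) :
    orb (insg g p) (k + 1) q =
      orb g (k + 1) (oldg p q) + (if orb g k (oldg p q) < orb g k p then 1 else 0) := by
  have hqh : oldg p q ≤ n := by unfold oldg; split_ifs <;> omega
  have hP := orb_le hg k p hp
  have hO := orb_le hg k _ hqh
  rcases orb_ins hg ha hp k q hq with ⟨h1, h2⟩ | ⟨h1, h2⟩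
  · simp only [orb]
    rw [h2] at h1 ⊢
    rcases Nat.lt_or_ge (orb g k (oldg p q)) (orb g k p) with h3 | h3
    · rw [if_pos h3, insg_lt h3]
    · rw [if_neg (by omega), insg_eq (by omega)]
      rfl
  · simp only [orb]
    rw [h2] at h1 ⊢
    rw [insg_gt h1, if_neg (by omega), Nat.add_sub_cancel]
    rfl

theorem insg_le {n p : ℕ} {g : ℕ → ℕ → ℕ} (hg : ∀ k q, q ≤ n → g k q ≤ n) (hp : p ≤ n)
    (k q : ℕ) (hq : q ≤ n + 1) : insg g p k q ≤ n + 1 := by
  have hP := orb_le hg k p hp
  unfold insg
  split_ifs with h1 h2
  · have := hg k q (by omega); omega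
  · have := hg k q (by omega); omega
  · have := hg k (q - 1) (by omega); omega

theorem insg_anti {n p : ℕ} {g : ℕ → ℕ → ℕ} (hg : ∀ k q, q ≤ n → g k q ≤ n)
    (ha : ∀ k q q', q ≤ q' → q' ≤ n → g k q' ≤ g k q) (hp : p ≤ n)
    (k q q' : ℕ) (h : q ≤ q') (hq : q' ≤ n + 1) : insg g p k q' ≤ insg g p k q := by
  have hP := orb_le hg k p hp
  unfold insg
  split_ifs with h1 h2 h3 h4 h5 h6 h7 h8
  · have := ha k q q' h (by omega); omega
  all_goals first
    | omega
    | (have := ha k q q' h (by omega); omega)
    | (have := ha k q (q' - 1) (by omega) (by omega); omega)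
    | (have := ha k (q - 1) (q' - 1) (by omega) (by omega); omega)

theorem oldg_lt {p q : ℕ} (h : q ≤ p) : oldg p q = q := by unfold oldg; rw [if_pos h]

theorem oldg_gt {p q : ℕ} (h : p < q) : oldg p q = q - 1 := by
  unfold oldg; rw [if_neg (by omega)]

/-- adjacent gaps -/
theorem adj {n p : ℕ} {g : ℕ → ℕ → ℕ} {r : ℕ → ℕ} (hg : ∀ k q, q ≤ n → g k q ≤ n)
    (ha : ∀ k q q', q ≤ q' → q' ≤ n → g k q' ≤ g k q) (hp : p ≤ n) (hI : Inv n g r)
    (k q : ℕ) (hq : q ≤ n) :
    orb (insg g p) k q = orb (insg g p) k (q + 1) ↔ insr p r q < k := by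
  classical
  rcases k with _ | k
  · simp [orb]
  rw [orb_ins_succ hg ha hp k q (by omega), orb_ins_succ hg ha hp k (q + 1) (by omega)]
  rcases lt_trichotomy q p with h | h | h
  · -- left of the new element
    rw [oldg_lt h.le, oldg_lt (show q + 1 ≤ p from h)]
    have e1 : orb g (k + 1) q = orb g (k + 1) (q + 1) ↔ r q < k + 1 := by
      rw [hI (k + 1) q (q + 1) (by omega) (by omega)]
      constructor
      · intro H; exact H q (le_refl _) (by omega)
      · intro H i h1 h2
        have : i = q := by omega
        rw [this]; exact H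
    have e0 : orb g k q = orb g k (q + 1) ↔ r q < k := by
      rw [hI k q (q + 1) (by omega) (by omega)]
      constructor
      · intro H; exact H q (le_refl _) (by omega)
      · intro H i h1 h2
        have : i = q := by omega
        rw [this]; exact H
    have e2 := hI k (q + 1) p (by omega) hp
    have m1 := orb_mono hg ha k q (q + 1) (by omega) (by omega)
    have m2 := orb_mono hg ha k (q + 1) p (by omega) hp
    have m3 := orb_mono hg ha (k + 1) q (q + 1) (by omega) (by omega)
    have hv : insr p r q =
        if r q % 2 = 0 ∧ ∀ j, q < j → j < p → r j < r q then r q + 1 else r q := by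
      unfold insr; rw [if_pos h]
    rw [hv]
    rcases Nat.mod_two_eq_zero_or_one k with hk | hk
    · have a1 := m1.1 hk
      have a2 := m2.1 hk
      have a3 := m3.2 (by omega)
      by_cases hvis : r q % 2 = 0 ∧ ∀ j, q < j → j < p → r j < r q
      · rw [if_pos hvis]
        constructor
        · intro H
          by_contra hc
          by_cases hrk : r q = k
          · have : orb g k (q + 1) = orb g k p := e2.2 (fun i h1 h2 => by
              have := hvis.2 i (by omega) h2; omega)
            have h3 : orb g k q ≠ orb g k (q + 1) := fun h4 => by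
              have := e0.1 h4; omega
            rw [if_pos (by omega), if_neg (by omega)] at H
            omega
          · have h3 : orb g (k + 1) q ≠ orb g (k + 1) (q + 1) := fun h4 => by
              have := e1.1 h4; omega
            split_ifs at H <;> omega
        · intro H
          have h3 := e1.2 (by omega)
          have h4 := e0.2 (by omega)
          rw [h3, h4]
      · rw [if_neg hvis]
        constructor
        · intro H
          by_contra hc
          have h3 : orb g (k + 1) q ≠ orb g (k + 1) (q + 1) := fun h4 => by
            have := e1.1 h4; omega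
          split_ifs at H <;> omega
        · intro H
          have h3 := e1.2 H
          rcases Nat.lt_or_ge (r q) k with hrk | hrk
          · have h4 := e0.2 hrk
            rw [h3, h4]
          · have hrk' : r q = k := by omega
            have h5 : ¬ orb g k (q + 1) = orb g k p := fun h6 => hvis ⟨by omega, fun j h1 h2 => by
              rw [hrk']; exact e2.1 h6 j (by omega) h2⟩
            rw [h3, if_pos (by omega), if_pos (by omega)]
    · have a1 := m1.2 hk
      have a2 := m2.2 hk
      rw [if_neg (by omega), if_neg (by omega), add_zero, add_zero, e1]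
      by_cases hvis : r q % 2 = 0 ∧ ∀ j, q < j → j < p → r j < r q
      · rw [if_pos hvis]
        have := hvis.1
        omega
      · rw [if_neg hvis]
  · -- the two gaps next to the new element
    subst h
    rw [oldg_lt (le_refl _), oldg_gt (Nat.lt_succ_self _), Nat.succ_sub_one]
    have hv : insr q r q = 0 := by
      unfold insr; rw [if_neg (lt_irrefl _), if_pos rfl]
    rw [hv]
    simp
  · -- right of the new element
    rw [oldg_gt h, oldg_gt (show p < q + 1 by omega), Nat.add_sub_cancel]
    obtain ⟨q, rfl⟩ : ∃ s, q = s + 1 := ⟨q - 1, by omega⟩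
    rw [Nat.add_sub_cancel]
    have e1 : orb g (k + 1) q = orb g (k + 1) (q + 1) ↔ r q < k + 1 := by
      rw [hI (k + 1) q (q + 1) (by omega) (by omega)]
      constructor
      · intro H; exact H q (le_refl _) (by omega)
      · intro H i h1 h2
        have : i = q := by omega
        rw [this]; exact H
    have e0 : orb g k q = orb g k (q + 1) ↔ r q < k := by
      rw [hI k q (q + 1) (by omega) (by omega)]
      constructor
      · intro H; exact H q (le_refl _) (by omega)
      · intro H i h1 h2
        have : i = q := by omega
        rw [this]; exact H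
    have e2 := hI k p q (by omega) (by omega)
    have m1 := orb_mono hg ha k q (q + 1) (by omega) (by omega)
    have m2 := orb_mono hg ha k p q (by omega) (by omega)
    have m3 := orb_mono hg ha (k + 1) q (q + 1) (by omega) (by omega)
    have hv : insr p r (q + 1) =
        if r q % 2 = 1 ∧ ∀ j, p ≤ j → j < q → r j < r q then r q + 1 else r q := by
      unfold insr
      rw [if_neg (by omega), if_neg (by omega)]
      simp only [Nat.add_sub_cancel]
    rw [hv]
    rcases Nat.mod_two_eq_zero_or_one k with hk | hk
    · have a1 := m1.1 hk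
      have a2 := m2.1 hk
      rw [if_neg (by omega), if_neg (by omega), add_zero, add_zero, e1]
      by_cases hvis : r q % 2 = 1 ∧ ∀ j, p ≤ j → j < q → r j < r q
      · rw [if_pos hvis]
        have := hvis.1
        omega
      · rw [if_neg hvis]
    · have a1 := m1.2 hk
      have a2 := m2.2 hk
      have a3 := m3.1 (by omega)
      by_cases hvis : r q % 2 = 1 ∧ ∀ j, p ≤ j → j < q → r j < r q
      · rw [if_pos hvis]
        constructor
        · intro H
          by_contra hc
          by_cases hrk : r q = k
          · have : orb g k p = orb g k q := e2.2 (fun i h1 h2 => by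
              have := hvis.2 i h1 h2; omega)
            have h3 : orb g k q ≠ orb g k (q + 1) := fun h4 => by
              have := e0.1 h4; omega
            rw [if_neg (by omega), if_pos (by omega)] at H
            omega
          · have h3 : orb g (k + 1) q ≠ orb g (k + 1) (q + 1) := fun h4 => by
              have := e1.1 h4; omega
            split_ifs at H <;> omega
        · intro H
          have h3 := e1.2 (by omega)
          have h4 := e0.2 (by omega)
          rw [h3, h4]
      · rw [if_neg hvis]
        constructor
        · intro H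
          by_contra hc
          have h3 : orb g (k + 1) q ≠ orb g (k + 1) (q + 1) := fun h4 => by
            have := e1.1 h4; omega
          split_ifs at H <;> omega
        · intro H
          have h3 := e1.2 H
          rcases Nat.lt_or_ge (r q) k with hrk | hrk
          · have h4 := e0.2 hrk
            rw [h3, h4]
          · have hrk' : r q = k := by omega
            have h5 : ¬ orb g k p = orb g k q := fun h6 => hvis ⟨by omega, fun j h1 h2 => by
              rw [hrk']; exact e2.1 h6 j h1 h2⟩
            rw [h3, if_pos (by omega), if_pos (by omega)]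

/-- the abstract rank process -/
theorem pf_INV : T_INV := by
  intro n p g r hg ha hp hI k a b hab hb
  constructor
  · intro H i h1 h2
    rw [← adj hg ha hp hI k i (by omega)]
    have hG := insg_le (p := p) hg hp
    have hA := insg_anti (p := p) hg ha hp
    have m1 := orb_mono hG hA k a i h1 (by omega)
    have m2 := orb_mono hG hA k i (i + 1) (by omega) (by omega)
    have m3 := orb_mono hG hA k (i + 1) b (by omega) (by omega)
    rcases Nat.mod_two_eq_zero_or_one k with hk | hk
    · have := m1.1 hk; have := m2.1 hk; have := m3.1 hk; omega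
    · have := m1.2 hk; have := m2.2 hk; have := m3.2 hk; omega
  · intro H
    obtain ⟨d, rfl⟩ := Nat.exists_eq_add_of_le hab
    clear hab
    induction d with
    | zero => rfl
    | succ d ih =>
      rw [ih (by omega) (fun i h1 h2 => H i h1 (by omega))]
      exact (adj hg ha hp hI k (a + d) (by omega)).2 (H (a + d) (by omega) (by omega))

end Pool.Agent.H74.STK
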